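import Pool.Agent.LRG.StmtsA
import Pool.Agent.Helper35_LUB.ELL

/-!
# LRG, row UNV: the universal Gram determinant
-/

set_option autoImplicit false

open Polynomial NumberField
open Pool.Agent.LUB (LogMod)

namespace Pool.Agent.LRG.H95

theorem chi_rest_degree {S : Type} [CommRing S] (n : ℕ) (hn : 0 < n) (e : ℤ)
    (y : Fin (n - 1) → S) :
    (∑ j : Fin (n - 1), C (y j) * X ^ (j.1 + 1) + C (e : S)).degree < (n : WithBot ℕ) := by
  refine (degree_add_le _ _).trans_lt (max_lt ?_ ?_)
  · rw [degree_lt_iff_coeff_zero]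
    intro m hm
    rw [finsetSum_coeff]
    refine Finset.sum_eq_zero fun j _ => ?_
    rw [coeff_C_mul_X_pow, if_neg]
    have hj := j.2
    omega
  · refine degree_C_le.trans_lt ?_
    exact_mod_cast hn

theorem chi_monic {S : Type} [CommRing S] (n : ℕ) (hn : 0 < n) (e : ℤ)
    (y : Fin (n - 1) → S) : (chi n e y).Monic := by
  unfold chi
  rw [add_assoc]
  exact monic_X_pow_add (chi_rest_degree n hn e y)

theorem chi_natDegree {S : Type} [CommRing S] [Nontrivial S] (n : ℕ) (hn : 0 < n) (e : ℤ)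
    (y : Fin (n - 1) → S) : (chi n e y).natDegree = n := by
  unfold chi
  rw [add_assoc]
  have h := chi_rest_degree n hn e y
  refine natDegree_eq_of_degree_eq_some ?_
  rw [degree_add_eq_left_of_degree_lt]
  · exact degree_X_pow n
  · rw [degree_X_pow]; exact h

theorem unv (hUNM : A.UnmStmt) (hSHF : A.ShfStmt) (hMAP : A.MapStmt) (hPCM : A.PcmStmt) :
    A.UnvStmt := by
  intro p _ n r z₀ e he hn
  obtain ⟨M, hM, hab⟩ := hUNM p n r z₀ e he hn
  choose a b hab using hab
  have h1 := fun i => hSHF p n r z₀ e M i (a i) (b i) (hab i) (MvPowerSeries (Ix n r) ℤ_[p])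
    (fun s => MvPowerSeries.X s)
  choose w b' hw using h1
  obtain ⟨yS, hyS⟩ : ∃ yS : Ix n r → MvPowerSeries (Ix n r) ℤ_[p],
      yS = fun s => (z₀ s : MvPowerSeries (Ix n r) ℤ_[p]) +
        (p : MvPowerSeries (Ix n r) ℤ_[p]) ^ 2 * MvPowerSeries.X s := ⟨_, rfl⟩
  rw [← hyS] at hw
  have hmon : ∀ i, (chiI e yS i).Monic := fun i => chi_monic n hn _ _
  have hdeg : ∀ i, (chiI e yS i).natDegree = n := fun i => chi_natDegree n hn _ _
  have hell := fun i => Pool.Agent.LUB.H35.ell p (MvPowerSeries (Ix n r) ℤ_[p])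
    (hPCM p (Ix n r)) (chiI e yS i) (w i) (hmon i)
  choose l hl hlog using hell
  refine ⟨M, (gram yS l).det, hM, ?_⟩
  intro O _ _ φ y hy
  have hyφ : y = fun s => φ (yS s) := by
    funext s
    rw [hy s, hyS]
    simp only [map_add, map_mul, map_pow, map_intCast, map_natCast]
  obtain ⟨m1, m2⟩ := hMAP p (MvPowerSeries (Ix n r) ℤ_[p]) O φ
  obtain ⟨m3, m4⟩ := m2 n r yS e
  rw [hyφ]
  refine ⟨fun i => (w i).map φ.toRingHom, fun i => (b' i).map φ.toRingHom,
    fun i => (l i).map φ.toRingHom, ?_, ?_, ?_, ?_⟩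
  · intro i
    have h2 := congrArg (Polynomial.map φ.toRingHom) (hw i)
    rw [Polynomial.map_pow, Polynomial.map_X, Polynomial.map_add, Polynomial.map_add,
      Polynomial.map_one, Polynomial.map_mul, Polynomial.map_mul, Polynomial.map_C, m3 i] at h2
    have h3 : φ.toRingHom ((p : MvPowerSeries (Ix n r) ℤ_[p]) ^ 2) = (p : O) ^ 2 := by
      rw [map_pow, map_natCast]
    rw [h3] at h2
    exact h2
  · intro i
    have h2 := m1 _ _ _ (hlog i)
    rw [m3 i] at h2
    exact h2
  · intro i m hm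
    show ((l i).map φ.toRingHom).coeff m = 0
    rw [Polynomial.coeff_map]
    have h2 : (l i).coeff m = 0 := by
      refine coeff_eq_zero_of_degree_lt ((hl i).trans_le ?_)
      refine degree_le_natDegree.trans ?_
      rw [hdeg i]
      exact_mod_cast hm
    rw [h2, map_zero]
  · exact m4 l

end Pool.Agent.LRG.H95
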