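import Pool.Agent.LRG.StmtsC

/-!
# LRG, row GDZ: a real Gram determinant which vanishes
-/

set_option autoImplicit false

namespace Pool.Agent.LRG.H95

theorem gdz : CX.GdzStmt := by
  intro r κ _ A hdet
  obtain ⟨c, hc, hmul⟩ := Matrix.exists_mulVec_eq_zero_iff.2 hdet
  refine ⟨c, hc, ?_⟩
  have h0 : ∀ i, ∑ i', (∑ σ, A i σ * A i' σ) * c i' = 0 := fun i => congrFun hmul i
  have h1 : ∑ i, c i * ∑ i', (∑ σ, A i σ * A i' σ) * c i' = 0 :=
    Finset.sum_eq_zero fun i _ => by rw [h0 i, mul_zero]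
  have h2 : ∑ σ, (∑ i, c i * A i σ) ^ 2 = 0 := by
    rw [← h1]
    simp_rw [sq, Finset.sum_mul_sum, Finset.mul_sum, Finset.sum_mul]
    rw [Finset.sum_comm]
    refine Finset.sum_congr rfl fun i _ => ?_
    rw [Finset.sum_comm]
    simp_rw [Finset.mul_sum]
    refine Finset.sum_congr rfl fun i' _ => Finset.sum_congr rfl fun σ _ => ?_
    ring
  intro σ
  have h3 := (Finset.sum_eq_zero_iff_of_nonneg (fun σ _ => sq_nonneg _)).1 h2 σ
    (Finset.mem_univ σ)
  exact (pow_eq_zero_iff two_ne_zero).1 h3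

end Pool.Agent.LRG.H95
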