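import Pool.Agent.LRG.StmtsR

/-!
# LRG, row LOP: the loop of the selection
-/

set_option autoImplicit false

namespace Pool.Agent.LRG.H95

open Pool.Agent.LRG.R

theorem lop : R.LopStatement := by
  intro hVAL hTRM N E L hE hL S₀ hS₀
  by_contra hcon
  have step : ∀ m, 1 ≤ m → ∃ (c : Fin m → Fin N) (S : Finset (Fin N → ℤ)),
      Function.Injective c ∧ S ⊆ S₀ ∧ Rob c (E m) (L m) S := by
    intro m hm
    induction m, hm using Nat.le_induction with
    | base =>
      by_contra hno
      obtain ⟨T, hT, hcard, hdep⟩ := hTRM N 0 Fin.elim0 (E 1) (L 1) S₀ (hE 1) (hL 1) (by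
        intro l hl S' hS' _ hrob
        refine hno ⟨Fin.cons l Fin.elim0, S', ?_, hS', hrob⟩
        exact Fin.cons_injective_iff.2 ⟨hl, fun a => a.elim0⟩)
      have h1 : T.card ≤ E 1 ^ N := hVAL N Fin.elim0 (E 1) T hdep
      have h2 : (T.card : ℝ) ≤ (E 1 : ℝ) ^ N := by exact_mod_cast h1
      have h3 : 0 ≤ L 1 ^ N := pow_nonneg (by linarith [hL 1]) _
      have h4 := mul_le_mul_of_nonneg_left h2 h3
      nlinarith
    | succ m hm ih =>
      obtain ⟨c, S, hc, hS, hrob⟩ := ih
      by_contra hno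
      apply hcon
      have hmN : m ≤ N := by
        have h := Fintype.card_le_of_injective c hc
        simpa using h
      refine ⟨m, c, S, hm, hmN, hc, hS, hrob, ?_⟩
      intro l hl S' hS' _ hrob'
      exact hno ⟨Fin.cons l c, S', Fin.cons_injective_iff.2 ⟨hl, hc⟩, hS'.trans hS, hrob'⟩
  obtain ⟨c, _, hc, _⟩ := step (N + 1) (by omega)
  have h := Fintype.card_le_of_injective c hc
  simp at h

end Pool.Agent.LRG.H95
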