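import Pool.Agent.LRG.StmtsB3

/-!
# LRG, row EVU: uniqueness of the evaluation of power series
-/

set_option autoImplicit false

open Polynomial

namespace Pool.Agent.LRG.H95

/-- `f = f(0) + ∑ X i g i` -/
theorem decomp {σ R : Type} [Fintype σ] [CommRing R] (f : MvPowerSeries σ R) :
    ∃ g : σ → MvPowerSeries σ R,
      f = MvPowerSeries.C (MvPowerSeries.constantCoeff f) + ∑ i, MvPowerSeries.X i * g i := by
  classical
  rcases isEmpty_or_nonempty σ with hσ | hσ
  · refine ⟨fun i => hσ.elim i, ?_⟩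
    ext α
    have hα : α = 0 := Subsingleton.elim _ _
    subst hα
    simp
  · have h0 : ∀ α : σ →₀ ℕ, α ≠ 0 → ∃ i, α i ≠ 0 := by
      intro α hα
      obtain ⟨i, hi⟩ := Finsupp.ne_iff.1 hα
      exact ⟨i, hi⟩
    choose! ch hch using h0
    obtain ⟨g, hg⟩ : ∃ g : σ → MvPowerSeries σ R, ∀ i β, MvPowerSeries.coeff β (g i) =
        if ch (β + Finsupp.single i 1) = i then
          MvPowerSeries.coeff (β + Finsupp.single i 1) f else 0 :=
      ⟨fun i => (fun β => if ch (β + Finsupp.single i 1) = i then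
        MvPowerSeries.coeff (β + Finsupp.single i 1) f else 0 : (σ →₀ ℕ) → R), fun i β => rfl⟩
    refine ⟨g, ?_⟩
    ext α
    rw [map_add, map_sum, MvPowerSeries.coeff_C]
    have h1 : ∀ i, MvPowerSeries.coeff α (MvPowerSeries.X i * g i) =
        if α i ≠ 0 then (if ch α = i then MvPowerSeries.coeff α f else 0) else 0 := by
      intro i
      rw [MvPowerSeries.X_def, MvPowerSeries.coeff_monomial_mul]
      by_cases hi : α i ≠ 0
      · have h2 : Finsupp.single i 1 ≤ α := by
          rw [Finsupp.single_le_iff]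
          omega
        rw [if_pos h2, if_pos hi, one_mul, hg, tsub_add_cancel_of_le h2]
      · have h2 : ¬ Finsupp.single i 1 ≤ α := by
          rw [Finsupp.single_le_iff]
          omega
        rw [if_neg h2, if_neg hi]
    simp_rw [h1]
    by_cases hα : α = 0
    · subst hα
      simp
    · rw [if_neg hα, zero_add, Finset.sum_eq_single (ch α)]
      · rw [if_pos (hch α hα), if_pos rfl]
      · intro i _ hi
        rw [if_neg (Ne.symm hi), ite_self]
      · intro h
        exact absurd (Finset.mem_univ _) h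

theorem eq_zero_of_dvd (p : ℕ) [hp : Fact p.Prime] (x : ℤ_[p])
    (h : ∀ n : ℕ, (p : ℤ_[p]) ^ n ∣ x) : x = 0 := by
  by_contra hx
  have h1 : 0 < ‖x‖ := norm_pos_iff.2 hx
  have hp1 : (1 : ℝ) < p := by exact_mod_cast hp.out.one_lt
  obtain ⟨n, hn⟩ := exists_pow_lt_of_lt_one h1 (inv_lt_one_of_one_lt₀ hp1)
  obtain ⟨c, hc⟩ := h n
  have h2 : ‖x‖ ≤ ((p : ℝ)⁻¹) ^ n := by
    rw [hc, norm_mul, norm_pow, PadicInt.norm_p]
    have h3 := PadicInt.norm_le_one c
    have h4 : (0 : ℝ) ≤ ((p : ℝ)⁻¹) ^ n := by positivity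
    calc ((p : ℝ)⁻¹) ^ n * ‖c‖ ≤ ((p : ℝ)⁻¹) ^ n * 1 := mul_le_mul_of_nonneg_left h3 h4
      _ = _ := mul_one _
  linarith

theorem evu : EvuStmt := by
  intro p hp σ hσ φ φ' hX hn
  classical
  cases nonempty_fintype σ
  have key : ∀ n : ℕ, ∀ f : MvPowerSeries σ ℤ_[p], (p : ℤ_[p]) ^ n ∣ φ f - φ' f := by
    intro n
    induction n with
    | zero => intro f; rw [pow_zero]; exact one_dvd _
    | succ n ih =>
      intro f
      obtain ⟨g, hg⟩ := decomp f
      have hC : ∀ (ψ : MvPowerSeries σ ℤ_[p] →ₐ[ℤ_[p]] ℤ_[p]) (a : ℤ_[p]),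
          ψ (MvPowerSeries.C a) = a := by
        intro ψ a
        exact ψ.commutes a
      have h1 : φ f - φ' f = ∑ i, φ (MvPowerSeries.X i) * (φ (g i) - φ' (g i)) := by
        have e1 : ∀ ψ : MvPowerSeries σ ℤ_[p] →ₐ[ℤ_[p]] ℤ_[p], ψ f =
            MvPowerSeries.constantCoeff f + ∑ i, ψ (MvPowerSeries.X i) * ψ (g i) := by
          intro ψ
          have e2 := congrArg ψ hg
          rw [map_add, hC, map_sum] at e2
          simp_rw [map_mul] at e2
          exact e2
        rw [e1 φ, e1 φ', add_sub_add_left_eq_sub, ← Finset.sum_sub_distrib]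
        refine Finset.sum_congr rfl fun i _ => ?_
        rw [← hX i, mul_sub]
      rw [h1]
      refine Finset.dvd_sum fun i _ => ?_
      rw [pow_succ, mul_comm ((p : ℤ_[p]) ^ n)]
      exact mul_dvd_mul ((PadicInt.norm_lt_one_iff_dvd _).1 (hn i)) (ih (g i))
  refine AlgHom.ext fun f => ?_
  exact sub_eq_zero.1 (eq_zero_of_dvd p _ fun n => key n f)

end Pool.Agent.LRG.H95
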