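import Pool.Agent.LRG.StmtsH

/-!
# LRG, row MUL: the multiplication by `lc(G j) z_j`
-/

set_option autoImplicit false

open Polynomial

namespace Pool.Agent.LRG.H95

open Pool.Agent.LRG.H

/-- the exponent `b`, cut off at `E` -/
def nb (E b : ℕ) : Fin (E + 1) := ⟨min b E, by omega⟩

theorem nb_val {E b : ℕ} (h : b ≤ E) : ((nb E b : Fin (E + 1)) : ℕ) = b := min_eq_left h

theorem zm_split {m k E : ℕ} {O : Type} [CommRing O] (x : Fin (m + k) → O)
    (α : Fin k → Fin (E + 1)) (j : Fin k) :
    zm x α = zv x j ^ (α j : ℕ) * ∏ i ∈ Finset.univ.erase j, zv x i ^ (α i : ℕ) := by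
  unfold zm
  rw [Finset.mul_prod_erase Finset.univ (fun i => zv x i ^ (α i : ℕ)) (Finset.mem_univ j)]

theorem zm_update {m k E : ℕ} {O : Type} [CommRing O] (x : Fin (m + k) → O)
    (α : Fin k → Fin (E + 1)) (j : Fin k) (b : Fin (E + 1)) :
    zm x (Function.update α j b) =
      zv x j ^ (b : ℕ) * ∏ i ∈ Finset.univ.erase j, zv x i ^ (α i : ℕ) := by
  rw [zm_split x _ j, Function.update_self]
  congr 1
  refine Finset.prod_congr rfl fun i hi => ?_
  rw [Function.update_of_ne (Finset.ne_of_mem_erase hi)]

theorem sum_ite {m k E : ℕ} {O : Type} [CommRing O] (x : Fin (m + k) → O)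
    (β₀ : Fin k → Fin (E + 1)) (a : MvPolynomial (Fin m) ℤ) :
    ∑ β, MvPolynomial.aeval (wv x) (if β = β₀ then a else 0) * zm x β =
      MvPolynomial.aeval (wv x) a * zm x β₀ := by
  rw [Finset.sum_eq_single β₀]
  · rw [if_pos rfl]
  · intro β _ hβ
    rw [if_neg hβ, map_zero, zero_mul]
  · intro h
    exact absurd (Finset.mem_univ _) h

theorem gev_eq {m k : ℕ} {O : Type} [CommRing O] (x : Fin (m + k) → O) (j : Fin k)
    (g : (MvPolynomial (Fin m) ℤ)[X]) :
    gev x j g = ∑ i ∈ Finset.range (g.natDegree + 1),
      MvPolynomial.aeval (wv x) (g.coeff i) * zv x j ^ i := by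
  unfold gev
  rw [Polynomial.eval₂_eq_sum_range]
  rfl

theorem mul : H.MulStmt := by
  classical
  intro m k E G hG j
  obtain ⟨hg0, hgn, hgc⟩ := hG j
  set g := G j with hg
  set n := g.natDegree with hn
  refine ⟨fun α β => if (α j : ℕ) < E then
      (if β = Function.update α j (nb E ((α j : ℕ) + 1)) then g.leadingCoeff else 0)
    else ∑ i ∈ Finset.range n,
      (if β = Function.update α j (nb E (i + E + 1 - n)) then -g.coeff i else 0), ?_, ?_⟩
  · intro α β
    dsimp only
    split_ifs with h1 h2
    · exact hgc _
    · rw [MvPolynomial.totalDegree_zero]; exact Nat.zero_le _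
    · refine (MvPolynomial.totalDegree_finsetSum _ _).trans ?_
      refine Finset.sup_le fun i _ => ?_
      split_ifs
      · rw [MvPolynomial.totalDegree_neg]; exact hgc _
      · rw [MvPolynomial.totalDegree_zero]; exact Nat.zero_le _
  · intro O _ x hx α
    have hlhs : MvPolynomial.aeval x (wp k g.leadingCoeff *
        MvPolynomial.X (⟨j, by omega⟩ : Fin (m + k))) =
        MvPolynomial.aeval (wv x) g.leadingCoeff * zv x j := by
      rw [map_mul, MvPolynomial.aeval_X]
      unfold wp
      rw [MvPolynomial.aeval_rename]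
      rfl
    rw [hlhs]
    set R := ∏ i ∈ Finset.univ.erase j, zv x i ^ (α i : ℕ) with hR
    dsimp only
    by_cases h1 : (α j : ℕ) < E
    · simp only [if_pos h1]
      rw [sum_ite, zm_update, nb_val (by omega), zm_split x α j, pow_succ]
      ring
    · simp only [if_neg h1]
      have hα : (α j : ℕ) = E := by
        have := (α j).2
        omega
      have h2 : ∑ β, MvPolynomial.aeval (wv x) (∑ i ∈ Finset.range n,
          (if β = Function.update α j (nb E (i + E + 1 - n)) then -g.coeff i else 0)) * zm x β =
          ∑ i ∈ Finset.range n, -(MvPolynomial.aeval (wv x) (g.coeff i)) *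
            (zv x j ^ (i + E + 1 - n) * R) := by
        have h3 : ∀ β, MvPolynomial.aeval (wv x) (∑ i ∈ Finset.range n,
            (if β = Function.update α j (nb E (i + E + 1 - n)) then -g.coeff i else 0)) *
              zm x β = ∑ i ∈ Finset.range n, MvPolynomial.aeval (wv x)
            (if β = Function.update α j (nb E (i + E + 1 - n)) then -g.coeff i else 0) *
              zm x β := by
          intro β
          rw [map_sum, Finset.sum_mul]
        simp_rw [h3]
        rw [Finset.sum_comm]
        refine Finset.sum_congr rfl fun i hi => ?_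
        have hi' := Finset.mem_range.1 hi
        rw [sum_ite, zm_update, nb_val (by omega), map_neg]
      rw [h2, zm_split x α j, hα]
      have h4 := hx j
      rw [gev_eq, Finset.sum_range_succ] at h4
      have h5 : MvPolynomial.aeval (wv x) (g.coeff n) * zv x j ^ n =
          -∑ i ∈ Finset.range n, MvPolynomial.aeval (wv x) (g.coeff i) * zv x j ^ i := by
        rw [eq_neg_iff_add_eq_zero, add_comm]
        exact h4
      have h6 : zv x j * zv x j ^ E = zv x j ^ n * zv x j ^ (E + 1 - n) := by
        rw [← pow_succ', ← pow_add]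
        congr 1
        omega
      have h7 : g.leadingCoeff = g.coeff n := rfl
      calc MvPolynomial.aeval (wv x) g.leadingCoeff * zv x j * (zv x j ^ E * R)
          = MvPolynomial.aeval (wv x) (g.coeff n) * (zv x j * zv x j ^ E) * R := by
            rw [h7]; ring
        _ = (MvPolynomial.aeval (wv x) (g.coeff n) * zv x j ^ n) * zv x j ^ (E + 1 - n) * R := by
            rw [h6]; ring
        _ = _ := by
            rw [h5, neg_mul, neg_mul, Finset.sum_mul, Finset.sum_mul, ← Finset.sum_neg_distrib]
            refine Finset.sum_congr rfl fun i hi => ?_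
            have hi' := Finset.mem_range.1 hi
            have h8 : i + E + 1 - n = i + (E + 1 - n) := by omega
            rw [h8, pow_add]
            ring

end Pool.Agent.LRG.H95
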