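import Pool.Agent.LRG.StmtsE

/-!
# LRG, row COU: the number of the fields
-/

set_option autoImplicit false

open Polynomial NumberField

namespace Pool.Agent.LRG.H95

open Pool.Agent.LRG.E

theorem cou : E.CouStmt := by
  classical
  intro hFFE hDSJ r₁ r₂ hr
  obtain ⟨δ, N₀, hδ, hδ1, hD⟩ := hDSJ r₁ r₂ hr
  have hf0 : 0 < (Fintype.card (Ro r₁ r₂)).factorial := Nat.factorial_pos _
  have hf : (0 : ℝ) < ((Fintype.card (Ro r₁ r₂)).factorial : ℝ) := by exact_mod_cast hf0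
  refine ⟨δ / ((Fintype.card (Ro r₁ r₂)).factorial : ℝ), max N₀ 4, div_pos hδ hf, ?_⟩
  intro N hN
  have hN0 : N₀ ≤ N := (le_max_left _ _).trans hN
  have hN4 : 4 ≤ N := (le_max_right _ _).trans hN
  have h1 : ∀ t : ℕ, ∃ K : IntermediateField ℚ ℂ, 4 ≤ t → ∃ (_ : NumberField K)
      (x : Ro r₁ r₂ → ℂ) (θ : K) (e : Ro r₁ r₂ ≃ (K →+* ℂ)), Fld r₁ r₂ t x K θ e := by
    intro t
    by_cases ht : 4 ≤ t
    · obtain ⟨K, h⟩ := hFFE r₁ r₂ t ht (by omega)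
      exact ⟨K, fun _ => h⟩
    · exact ⟨⊥, fun h => absurd h ht⟩
  choose Kf hKf using h1
  obtain ⟨T, hT⟩ : ∃ T : Finset ℕ, T = Finset.Icc N ⌊(1 + δ) * N⌋₊ := ⟨_, rfl⟩
  have hpos : (0 : ℝ) ≤ (1 + δ) * N := by positivity
  have hT1 : ∀ t ∈ T, N ≤ t ∧ (t : ℝ) ≤ (1 + δ) * N := by
    intro t ht
    rw [hT, Finset.mem_Icc] at ht
    exact ⟨ht.1, (Nat.le_floor_iff hpos).1 ht.2⟩
  have hTc : δ * N ≤ (T.card : ℝ) := by
    have h2 : (T.card : ℝ) + N ≥ (⌊(1 + δ) * (N : ℝ)⌋₊ : ℝ) + 1 := by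
      rw [hT, Nat.card_Icc]
      have h3 : ⌊(1 + δ) * (N : ℝ)⌋₊ + 1 ≤ (⌊(1 + δ) * (N : ℝ)⌋₊ + 1 - N) + N := by omega
      exact_mod_cast h3
    have h4 := Nat.lt_floor_add_one ((1 + δ) * (N : ℝ))
    linarith
  refine ⟨T.image Kf, ?_, ?_⟩
  · have hfib : ∀ K ∈ T.image Kf, (T.filter fun t => Kf t = K).card ≤
        (Fintype.card (Ro r₁ r₂)).factorial := by
      intro K hK
      obtain ⟨t₀, ht₀, rfl⟩ := Finset.mem_image.1 hK
      obtain ⟨hNF, x₀, θ₀, e₀, -⟩ := hKf t₀ (hN4.trans (hT1 t₀ ht₀).1)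
      have P : ∀ t ∈ T.filter (fun t => Kf t = Kf t₀), ∃ e : Ro r₁ r₂ ≃ (Kf t₀ →+* ℂ),
          ∃ (x : Ro r₁ r₂ → ℂ) (θ : Kf t₀), Fld r₁ r₂ t x (Kf t₀) θ e := by
        intro t ht
        obtain ⟨ht1, ht2⟩ := Finset.mem_filter.1 ht
        have h5 := hKf t (hN4.trans (hT1 t ht1).1)
        rw [ht2] at h5
        obtain ⟨_, x, θ, e, he⟩ := h5
        exact ⟨e, x, θ, he⟩
      have : Nonempty (Ro r₁ r₂ ≃ (Kf t₀ →+* ℂ)) := ⟨e₀⟩
      choose! g hg using P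
      have hcard : Fintype.card (Ro r₁ r₂ ≃ (Kf t₀ →+* ℂ)) =
          (Fintype.card (Ro r₁ r₂)).factorial := Fintype.card_equiv e₀
      rw [← hcard]
      refine Finset.card_le_card_of_injOn g (fun _ _ => Finset.mem_univ _) ?_
      intro t ht t' ht' htt
      obtain ⟨x, θ, h6⟩ := hg t ht
      obtain ⟨x', θ', h7⟩ := hg t' ht'
      have htT := hT1 t (Finset.mem_filter.1 ht).1
      have htT' := hT1 t' (Finset.mem_filter.1 ht').1
      rw [← htt] at h7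
      exact hD N hN0 (Kf t₀) t t' x x' θ θ' (g t) h6 h7 htT.1 htT'.1 htT.2 htT'.2
    have h8 := Finset.card_le_mul_card_image T _ hfib
    have h9 : (T.card : ℝ) ≤ ((Fintype.card (Ro r₁ r₂)).factorial : ℝ) *
        ((T.image Kf).card : ℝ) := by exact_mod_cast h8
    rw [div_mul_eq_mul_div, div_le_iff₀ hf]
    linarith
  · intro K hK
    obtain ⟨t, ht, rfl⟩ := Finset.mem_image.1 hK
    obtain ⟨ht1, ht2⟩ := hT1 t ht
    obtain ⟨hNF, x, θ, e, he⟩ := hKf t (hN4.trans ht1)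
    refine ⟨hNF, t, x, θ, e, ht1, ?_, he⟩
    have h3 : (t : ℝ) ≤ 2 * N := by
      have h4 : (0 : ℝ) ≤ N := Nat.cast_nonneg N
      nlinarith
    exact_mod_cast h3

end Pool.Agent.LRG.H95
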